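import Pool.Agent.AT10.Stmts1
import Pool.Agent.Helper32_AT5.ZIM

/-!
# Squad AT10, row FCZ: `u ↦ χ(u i)` is a virtual character of `P`
-/

set_option autoImplicit false

open scoped BigOperators

noncomputable section

namespace Pool.Agent.PP.T10.H76

open Pool.Agent.Helper51_AWC Pool.Agent.Helper79_WRA Pool.Agent.PP Pool.Agent.PP.KF
open Pool.Agent.PP.K9 Pool.Agent.PP.K9.H97 Pool.Agent.PP.H75 Pool.Agent.PP.T3 Pool.Agent.PP.T2
open Pool.Agent.PP.T5 Pool.Agent.PP.TB
open Pool.Agent.PP.T8 (rs pw fv rd Ip Rv)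

attribute [local instance] Ideal.Quotient.field

/-- the representation on an invariant subspace -/
def restrictRep {H V : Type} [Group H] [AddCommGroup V] [Module ℂ V] (ρ : Representation ℂ H V)
    (W : Submodule ℂ V) (hW : ∀ (h : H), ∀ x ∈ W, ρ h x ∈ W) : Representation ℂ H W where
  toFun h := (ρ h).restrict (hW h)
  map_one' := by
    ext x
    simp
  map_mul' g h := by
    ext x
    simp

/-- FCZ -/
theorem fcz : FczStmt := by
  intro M _ G _ _ P i hi χ hχ
  obtain ⟨n, ρ, _, hρ⟩ := hχ
  have hFG : Fintype G := Fintype.ofFinite G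
  obtain ⟨p, hpdef⟩ : ∃ p : Module.End ℂ (Fin n → ℂ), p = ∑ g, i g • ρ g := ⟨_, rfl⟩
  have hp : p * p = p := by
    have h1 : p * p = ∑ g, ∑ h, (i g * i h) • ρ (g * h) := by
      simp only [hpdef, Finset.sum_mul, Finset.mul_sum]
      rw [Finset.sum_comm]
      refine Finset.sum_congr rfl fun h _ => Finset.sum_congr rfl fun g _ => ?_
      rw [map_mul, smul_mul_smul_comm]
    have h2 : ∀ x, i x = ∑ t, i t * i (t⁻¹ * x) := by
      intro x
      conv_lhs => rw [← hi.id]
      rw [mulF, finsum_eq_sum_of_fintype]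
    rw [h1]
    have h3 : p = ∑ x, ∑ t, (i t * i (t⁻¹ * x)) • ρ x := by
      simp only [hpdef]
      refine Finset.sum_congr rfl fun x _ => ?_
      rw [← Finset.sum_smul, ← h2]
    refine Eq.trans ?_ (h3.trans Finset.sum_comm).symm
    refine Finset.sum_congr rfl fun t _ => ?_
    rw [← Equiv.sum_comp (Equiv.mulLeft t) (fun x => (i t * i (t⁻¹ * x)) • ρ x)]
    refine Finset.sum_congr rfl fun x _ => ?_
    rw [Equiv.coe_mulLeft, inv_mul_cancel_left]
  have hpv : ∀ v : P, ρ v * p = p * ρ v := by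
    intro v
    simp only [hpdef, Finset.sum_mul, Finset.mul_sum]
    rw [← Equiv.sum_comp (MulAut.conj (v : G)).toEquiv (fun x => i x • ρ x * ρ (v : G))]
    refine Finset.sum_congr rfl fun x _ => ?_
    have h1 : (MulAut.conj (v : G)).toEquiv x = v * x * (v : G)⁻¹ := rfl
    rw [h1, hi.iv v v.2, mul_smul_comm, smul_mul_assoc, ← map_mul, ← map_mul,
      inv_mul_cancel_right]
  have hW : ∀ (u : P), ∀ x ∈ LinearMap.range p, (ρ.comp P.subtype) u x ∈ LinearMap.range p := by
    rintro u x ⟨y, rfl⟩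
    refine ⟨ρ u y, ?_⟩
    exact (LinearMap.congr_fun (hpv u) y).symm
  have h1 := H32.char_mem_ZI (restrictRep (ρ.comp P.subtype) (LinearMap.range p) hW)
  have h2 : (restrictRep (ρ.comp P.subtype) (LinearMap.range p) hW).character =
      fun u : P => fv i (u : G) χ := by
    funext u
    have hf : ∀ x, (ρ (u : G) * p) x ∈ LinearMap.range p := by
      intro x
      rw [hpv]
      exact ⟨ρ (u : G) x, rfl⟩
    have h3 := LinearMap.trace_restrict_eq_of_forall_mem (LinearMap.range p) (ρ (u : G) * p) hf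
    have h4 : (ρ (u : G) * p).restrict (fun x _ => hf x) =
        (restrictRep (ρ.comp P.subtype) (LinearMap.range p) hW) u := by
      ext x
      obtain ⟨x, y, rfl⟩ := x
      have h5 : p (p y) = p y := LinearMap.congr_fun hp y
      show (ρ (u : G)) (p (p y)) _ = (ρ (u : G)) (p y) _
      rw [h5]
    have h6 : (restrictRep (ρ.comp P.subtype) (LinearMap.range p) hW).character u =
        LinearMap.trace ℂ (LinearMap.range p)
          ((restrictRep (ρ.comp P.subtype) (LinearMap.range p) hW) u) := rfl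
    rw [h6, ← h4, h3, fv, finsum_eq_sum_of_fintype, hpdef, Finset.mul_sum, map_sum]
    refine Finset.sum_congr rfl fun g _ => ?_
    rw [mul_smul_comm, map_smul, smul_eq_mul, ← map_mul]
    congr 1
    rw [← hρ]
    rfl
  rw [h2] at h1
  exact h1

end Pool.Agent.PP.T10.H76
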