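import Pool.Agent.AT10.Stmts3
import Pool.Agent.Helper77_AT5.LBX
import Pool.Agent.Helper62_AT3.LCJ
import Pool.Agent.Helper65_AT2.TYA
import Pool.Agent.Helper32_AT2.PWU
import Pool.Agent.Helper79_AT3.FUS
import Pool.Agent.Helper53_AT10.IXP

/-!
# AT10, row SCL: strong closure of `Z(V) ^ (ℓ ^ p)`
-/

open scoped BigOperators

set_option autoImplicit false

noncomputable section

namespace Pool.Agent.PP.T10.H76

open Pool.Agent.Helper51_AWC Pool.Agent.Helper79_WRA Pool.Agent.PP Pool.Agent.PP.KF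
open Pool.Agent.PP.K9 Pool.Agent.PP.K9.H97 Pool.Agent.PP.H75 Pool.Agent.PP.T3 Pool.Agent.PP.T2
open Pool.Agent.PP.T5 Pool.Agent.PP.TB
open Pool.Agent.PP.T8 (rs pw fv rd Ip Rv)

attribute [local instance] Ideal.Quotient.field

section tools

variable {F G : Type} [Field F] [Group G] [Finite G] {ℓ : ℕ}

theorem mem_cu_conj (q z x : G) : x ∈ Cu (q * z * q⁻¹) ↔ q⁻¹ * x * q ∈ Cu z := by
  rw [Subgroup.mem_centralizer_singleton_iff, Subgroup.mem_centralizer_singleton_iff]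
  constructor
  · intro h
    have h1 : q⁻¹ * (x * (q * z * q⁻¹)) * q = q⁻¹ * (q * z * q⁻¹ * x) * q := by rw [h]
    have e1 : q⁻¹ * (x * (q * z * q⁻¹)) * q = q⁻¹ * x * q * z := by group
    have e2 : q⁻¹ * (q * z * q⁻¹ * x) * q = z * (q⁻¹ * x * q) := by group
    rw [e1, e2] at h1
    exact h1
  · intro h
    have h1 : q * (q⁻¹ * x * q * z) * q⁻¹ = q * (z * (q⁻¹ * x * q)) * q⁻¹ := by rw [h]
    have e1 : q * (q⁻¹ * x * q * z) * q⁻¹ = x * (q * z * q⁻¹) := by group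
    have e2 : q * (z * (q⁻¹ * x * q)) * q⁻¹ = q * z * q⁻¹ * x := by group
    rw [e1, e2] at h1
    exact h1

theorem gd_cj {b : G → F} {V : Subgroup G} (h : Gd b V) (q : G) : Gd (H75.cj q b) (conjS q V) := by
  obtain ⟨x, hx, hb⟩ := h
  have e : q⁻¹ * (q * x * q⁻¹) * q = x := by group
  refine ⟨q * x * q⁻¹, ?_, ?_⟩
  · rw [T3.H62.mem_cent_conjS, e]
    exact hx
  · change b (q⁻¹ * (q * x * q⁻¹) * q) ≠ 0
    rw [e]
    exact hb

theorem tp_conj {e : G → F} (he : IsCl e) {V : Subgroup G} (h : Tp ℓ e V) (q : G) :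
    Tp ℓ e (conjS q V) := by
  refine ⟨h.pg.map _, ?_, fun Q hQ hg => ?_⟩
  · have := gd_cj h.gd q
    rwa [cj_isCl q he] at this
  · rw [T3.H62.card_conjS']
    exact h.mx Q hQ hg

/-- the conjugate of a local block -/
theorem lb_conj {e : G → F} {V : Subgroup G} {z : G} {b : G → F} (h : Lb ℓ e V z b) (q : G) :
    Lb ℓ e (conjS q V) (q * z * q⁻¹) (H75.cj q b) := by
  have hcl : IsCl e := h.blk.1.1
  have hbx : Bx (Cu (q * z * q⁻¹)) (H75.cj q b) := T3.H62.bx_cj (mem_cu_conj q z) h.bx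
  refine ⟨h.blk, tp_conj hcl h.tp q, (T3.H62.conjS_mem_iff z).2 h.mem, fun v hv => ?_, hbx, ?_,
    gd_cj h.gd q⟩
  · have h1 := h.cen _ (T3.H62.mem_conjS.1 hv)
    have h2 : q * (q⁻¹ * v * q * z) * q⁻¹ = q * (z * (q⁻¹ * v * q)) * q⁻¹ := by rw [h1]
    have e1 : q * (q⁻¹ * v * q * z) * q⁻¹ = v * (q * z * q⁻¹) := by group
    have e2 : q * (z * (q⁻¹ * v * q)) * q⁻¹ = q * z * q⁻¹ * v := by group
    rw [e1, e2] at h2
    exact h2
  · have h1 : ∀ (C : Subgroup G) (c : G → F), (∀ x, x ∉ C → c x = 0) →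
        mulF (fun t : C => e t) (fun t : C => c t) = fun t : C => mulF c e t := by
      intro C c hc
      have hcl' : IsCl (fun t : C => e t) := fun x y => hcl x y
      rw [mulF_comm_cl hcl', ← mulF_res C e hc]
    have h2 : ∀ t ∈ Cu z, mulF b e t = b t := by
      intro t ht
      have h3 := h.und
      rw [h1 _ b h.bx.supp] at h3
      exact congrFun h3 ⟨t, ht⟩
    rw [h1 _ _ hbx.supp]
    funext t
    change mulF (H75.cj q b) e t = H75.cj q b t
    have h4 : mulF (H75.cj q b) e = H75.cj q (mulF b e) := by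
      rw [cj_mulF, cj_isCl q hcl]
    rw [h4]
    exact h2 _ ((mem_cu_conj q z t).1 t.2)

end tools

/-- SCL -/
theorem scl : SclStmt := by
  intro ℓ _ M _ hM G _ _ e V γ he htp hγ hund p hp β hβ hβV z hz b hLb hbγ u hu q₀ hq₀ hqb₀
  have hF : GoodF ℓ (FF M) := H50.fld ℓ Fact.out M hM
  have hcz := T3.H88.cu_eq u
  have hzle : Subgroup.zpowers u ≤ V := (Subgroup.zpowers_le).2 hu
  obtain ⟨bu, hbu0⟩ : ∃ x, x = β (Subgroup.zpowers u) := ⟨_, rfl⟩
  rw [← hbu0] at hqb₀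
  have hbu : Bx (Cu u) bu := by
    have := hβ.bx (Subgroup.zpowers u) hzle
    rw [hcz] at this
    rw [hbu0]
    exact this
  -- the conjugates of `V`
  have htpq : ∀ q : G, q * z * q⁻¹ = u → H75.cj q b = bu →
      Tp ℓ (fun t : Cu u => bu t) ((conjS q V).subgroupOf (Cu u)) := by
    intro q hq hqb
    have h1 := lb_conj hLb q
    rw [hq, hqb] at h1
    exact ((T5.H77.lbx ℓ M hM G e (conjS q V) u he h1.tp h1.mem h1.cen).2 bu h1).1
  -- (2)
  have hcuN : Cu u ≤ Subgroup.normalizer (Subgroup.zpowers u : Set G) := by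
    rw [← hcz]
    exact Subgroup.centralizer_le_normalizer _
  have huu : u ∈ Cu u := Subgroup.mem_centralizer_singleton_iff.2 rfl
  obtain ⟨R, hR⟩ : ∃ R, R = V ⊓ Cu u := ⟨_, rfl⟩
  have hzR : Subgroup.zpowers u ≤ R := by
    rw [hR]
    exact le_inf hzle ((Subgroup.zpowers_le).2 huu)
  have hRV : R ≤ V := by
    rw [hR]
    exact inf_le_left
  have hRC : R ≤ Cu u := by
    rw [hR]
    exact inf_le_right
  have huR : u ∈ R := hzR (Subgroup.mem_zpowers u)
  have hbrR := hβ.br (Subgroup.zpowers u) R hzR hRV (hRC.trans hcuN)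
  rw [← hbu0] at hbrR
  have hgood : ∃ g ∈ Subgroup.centralizer (R : Set G), bu g ≠ 0 := by
    by_contra hcon
    apply (hβ.bx R hRV).ne
    rw [← hbrR]
    have h0 : br R bu = 0 := by
      funext g
      by_cases hg : g ∈ Subgroup.centralizer (R : Set G)
      · rw [Pool.Agent.PP.H66.br_of_mem hg]
        by_contra h1
        exact hcon ⟨g, hg, h1⟩
      · rw [Pool.Agent.PP.H66.br_of_not_mem hg]
        rfl
    rw [h0, mulF_zero_left]
  have hgd : Gd (fun t : Cu u => bu t) (R.subgroupOf (Cu u)) := by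
    obtain ⟨g, hg, hg0⟩ := hgood
    have hgC : g ∈ Cu u := T3.H88.cent_le_cu huR hg
    refine ⟨⟨g, hgC⟩, ?_, hg0⟩
    rw [Subgroup.mem_centralizer_iff]
    intro x hx
    exact Subtype.ext (Subgroup.mem_centralizer_iff.1 hg x (Subgroup.mem_subgroupOf.1 hx))
  have hpgR : IsPGroup ℓ (R.subgroupOf (Cu u)) :=
    (htp.pg.to_le hRV).comap_of_injective (Cu u).subtype (Cu u).subtype_injective
  obtain ⟨c, hc⟩ := (H69.fmg ℓ M hM (Cu u) _ hbu.blk _ (htpq q₀ hq₀ hqb₀)).1 _ hpgR hgd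
  obtain ⟨q, hqdef⟩ : ∃ x, x = (c : G) * q₀ := ⟨_, rfl⟩
  have hcu : (c : G) * u = u * c := Subgroup.mem_centralizer_singleton_iff.1 c.2
  have hq : q * z * q⁻¹ = u := by
    have h1 : q * z * q⁻¹ = (c : G) * (q₀ * z * q₀⁻¹) * (c : G)⁻¹ := by
      rw [hqdef]
      group
    rw [h1, hq₀, hcu]
    group
  have hqb : H75.cj q b = bu := by
    rw [hqdef, ← cj_cj, hqb₀]
    exact hbu.ix.inv c.2
  have hRq : R ≤ conjS q V := by
    intro x hx
    have h1 : (⟨x, hRC hx⟩ : Cu u) ∈ R.subgroupOf (Cu u) := hx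
    have h2 := hc h1
    rw [T3.H62.mem_conjS, Subgroup.mem_subgroupOf] at h2
    have h3 : (c : G)⁻¹ * x * c ∈ conjS q₀ V := h2
    rw [T3.H62.mem_conjS] at h3 ⊢
    have e1 : q⁻¹ * x * q = q₀⁻¹ * ((c : G)⁻¹ * x * c) * q₀ := by
      rw [hqdef]
      group
    rw [e1]
    exact h3
  -- (3)
  have hZR : Zc V ≤ R := by
    intro x hx
    rw [hR]
    refine ⟨hx.1, ?_⟩
    exact T3.H88.cent_le_cu hu hx.2
  have hcomm : ∀ x ∈ Zc V, ∀ y ∈ Zc V, x * y = y * x := fun x hx y hy =>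
    Subgroup.mem_centralizer_iff.1 hy.2 x hx.1
  obtain ⟨w, hw, hzw⟩ := ((T2.H32.pwu G (ℓ ^ p) (Zc V) hcomm).1 z).1 hz
  have hpow := T10.H53.ixp ℓ G (conjS q V) (Zc V) p (htp.pg.map _) (hZR.trans hRq)
    (by rw [T3.H62.card_conjS']; exact hp)
  have huZ : u ∈ Zc V := by
    have h1 := hpow (q * w * q⁻¹) ((T3.H62.conjS_mem_iff w).2 hw.1)
    rw [conj_pow, ← hzw, hq] at h1
    exact h1
  -- (4)
  have hVC : V ≤ Cu u := fun v hv =>
    Subgroup.mem_centralizer_singleton_iff.2 (Subgroup.mem_centralizer_iff.1 huZ.2 v hv)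
  have hRV' : R = V := by
    rw [hR]
    exact inf_eq_left.2 hVC
  have hVq : V = conjS q V := by
    apply Subgroup.eq_of_le_of_card_ge
    · rw [← hRV']
      rw [hRV']
      intro x hx
      exact hRq (hRV' ▸ hx)
    · rw [T3.H62.card_conjS']
  have hqN : q ∈ Subgroup.normalizer (V : Set G) := by
    rw [Subgroup.mem_normalizer_iff]
    intro v
    conv_rhs => rw [hVq]
    rw [T3.H62.mem_conjS, show q⁻¹ * (q * v * q⁻¹) * q = v by group]
  -- (5)
  have hXC : Subgroup.centralizer (V : Set G) ≤ Cu u := T3.H88.cent_le_cu hu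
  have hXN : Subgroup.centralizer (V : Set G) ≤ Subgroup.normalizer (V : Set G) :=
    Subgroup.centralizer_le_normalizer _
  have htpV : Tp ℓ (fun t : Cu u => bu t) (V.subgroupOf (Cu u)) := by
    have := htpq q hq hqb
    rwa [← hVq] at this
  obtain ⟨-, ⟨hf2, -⟩, -⟩ := H69.fmg ℓ M hM (Cu u) _ hbu.blk _ htpV
  have hext : PP.ext0 (Cu u) (fun t : Cu u => bu t) = bu := by
    funext x
    by_cases hx : x ∈ Cu u
    · rw [H46.ext0_of_mem _ hx]
    · rw [H46.ext0_of_not_mem _ hx, hbu.supp x hx]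
  have hbx := bx_of hVC hXC hXN hf2
  rw [hext] at hbx
  have hbuγ : mulF (br V bu) γ = γ := by
    have h1 := hβ.br (Subgroup.zpowers u) V hzle le_rfl (hVC.trans hcuN)
    rw [← hbu0, hβV] at h1
    exact h1
  have hqγ : Bx (Subgroup.centralizer (V : Set G)) (H75.cj q γ) :=
    hγ.cj (T3.H79.norm_cent V hqN)
  have hbq : mulF (br V bu) (H75.cj q γ) = H75.cj q γ := by
    have h1 := congrArg (H75.cj q) hbγ
    rw [cj_mulF, T3.H79.cj_br hqN, hqb] at h1
    exact h1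
  obtain ⟨m, hm, hmn⟩ := H97.orb_main (N := Subgroup.normalizer (V : Set G) ⊓ Cu u)
    (X := Subgroup.centralizer (V : Set G)) (le_inf hXN hXC)
    (inf_le_left.trans (T3.H79.norm_cent V)) hbx hγ hqγ hbuγ hbq
  refine ⟨m⁻¹ * q, ⟨Subgroup.mul_mem _ (inv_mem hm.1) hqN, ?_⟩, ?_⟩
  · have h1 : H75.cj (m⁻¹ * q) γ = γ := by
      rw [← cj_cj, hmn, cj_inv_cj]
    exact (cj_eq_iff _ _).1 h1
  · have hmu : m * u = u * m := Subgroup.mem_centralizer_singleton_iff.1 hm.2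
    have h1 : m⁻¹ * q * z * (m⁻¹ * q)⁻¹ = m⁻¹ * (q * z * q⁻¹) * m := by group
    rw [h1, hq, mul_assoc, ← hmu]
    group

end Pool.Agent.PP.T10.H76
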